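import Pool.Agent.N300.UN.Stubs
import Pool.Agent.H357R4.FZ_SRB
import Pool.Agent.H911R5.FZ_RDG
import Pool.Agent.H154R5.FP_T1
import Pool.Agent.H386R6.FZ_R0
import Pool.Agent.H419R2.FZ_INV
import Pool.Agent.H940D.FZ_HUW
import Pool.Agent.H940D.FZ_GRP2
import Pool.Agent.H821R6.FZ_CLO
import Pool.Agent.H844R4.FP.PHI
import Pool.Agent.H254R2.FP_GADC
import Pool.Agent.H821R6.FZ_SUB

/-! The standing assumptions from infinitely many free copies of `C([0,1])`. -/

set_option autoImplicit false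

open scoped ComplexConjugate

noncomputable section

namespace Pool.Agent.N717.UN

open Pool.Agent.H923R2.FP Pool.Agent.H923R2.FZ Pool.Agent.N300.UN

open Pool.Agent.H923R2.FZ.T_HUW (free_mono um_zpow)

theorem huw' : S_HUW := T_HUW.t_HUW T_GRP2.t_GRP2 T_CLO.t_CLO T_PHI.t_PHI T_GADC.t_GADC

/-- grouping with closures -/
theorem grp {A : Type} [CStarAlgebra A] {τ : A →ₗ[ℂ] ℂ} (hτ : FTS τ) {K : Type}
    {S : K → StarSubalgebra ℂ A} (h : FreeFam τ S) (P : Set K) (k1 : K) (hk : k1 ∉ P)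
    (X Y : StarSubalgebra ℂ A) (hX : X ≤ (⨆ k : {k // k ∈ P}, S k.1).topologicalClosure)
    (hY : Y ≤ S k1) : FreeFam τ (fun b : Bool => if b then X else Y) := by
  have h1 := T_CLO.t_CLO A τ hτ _ _ (T_GRP2.t_GRP2 A τ hτ K S h P)
  refine free_mono h1 (fun b : Bool => if b then none else some ⟨k1, hk⟩) ?_ ?_
  · intro a b hab
    cases a <;> cases b <;> simp_all
  · intro b
    cases b with
    | true => exact hX
    | false => exact le_trans hY (StarSubalgebra.le_topologicalClosure _)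

theorem Uc_map {A C : Type} [Ring A] [Ring C] [StarRing A] [StarRing C] [Algebra ℂ A]
    [Algebra ℂ C] (π : A →⋆ₐ[ℂ] C) (x : A) : ∀ m : ℕ, Uc (π x) m = π (Uc x m)
  | 0 => by simp [Uc]
  | 1 => by simp [Uc]
  | m + 2 => by
    simp only [Uc]
    rw [Uc_map π x (m + 1), Uc_map π x m, map_sub, map_mul]

theorem leb_Uc {φ : C(unitInterval, ℝ)}
    (h : ∀ m : ℕ, m ≠ 0 → ∫ x : unitInterval, Uc (φ x) m = 0) (m : ℕ) (hm : m ≠ 0) :
    leb (Uc (cx φ) m) = 0 := by
  unfold leb
  simp only [T_GADC.Uc_cx]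
  rw [integral_complex_ofReal, h m hm]
  simp

theorem star_cx (φ : C(unitInterval, ℝ)) : star (cx φ) = cx φ := by
  ext x
  show conj ((φ x : ℝ) : ℂ) = _
  rw [Complex.conj_ofReal]
  rfl

section

variable {B : Type} [CStarAlgebra B] (S : StarSubalgebra ℂ B)
  (g : ℕ → (C(unitInterval, ℂ) →⋆ₐ[ℂ] B))

/-- the algebra generated by `S` and the even copies -/
def A0 : StarSubalgebra ℂ B :=
  (StarAlgebra.adjoin ℂ ((S : Set B) ∪ ⋃ k, Set.range (g (2 * k)))).topologicalClosure

instance isClosed_A0 : IsClosed (A0 S g : Set B) :=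
  StarSubalgebra.isClosed_topologicalClosure _

theorem S_le : S ≤ A0 S g := fun _ hx => StarSubalgebra.le_topologicalClosure _
  (StarAlgebra.subset_adjoin _ _ (Or.inl hx))

theorem g_mem (k : ℕ) (x : C(unitInterval, ℂ)) : g (2 * k) x ∈ A0 S g :=
  StarSubalgebra.le_topologicalClosure _
    (StarAlgebra.subset_adjoin _ _ (Or.inr (Set.mem_iUnion.2 ⟨k, x, rfl⟩)))

/-- the even copies in `A0` -/
def gA (k : ℕ) : C(unitInterval, ℂ) →⋆ₐ[ℂ] A0 S g := (g (2 * k)).codRestrict _ (g_mem S g k)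

theorem gA_coe (k : ℕ) (x : C(unitInterval, ℂ)) : ((gA S g k x : A0 S g) : B) = g (2 * k) x := rfl

end

theorem t_SETUP (hcut : S_CUT) : S_SETUP := by
  intro B _ τ S g hτ hg hfree
  obtain ⟨φ, hφ1, hφinj, hφ2⟩ := T_PHI.t_PHI
  obtain ⟨z, -, -, -, hz, -, -⟩ := T_GADC.t_GADC φ hφ1 hφ2 0
  set Sf : Option ℕ → StarSubalgebra ℂ B := fun o => o.elim S fun k => (g k).range with hSf
  obtain ⟨hτA, hsub⟩ := T_SUB.t_SUB B τ hτ (A0 S g)
  set τA : A0 S g →ₗ[ℂ] ℂ := τ.comp (A0 S g).subtype.toAlgHom.toLinearMap with hτAdef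
  have hτAv : ∀ x : A0 S g, τA x = τ (x : B) := fun x => rfl
  have hgA : ∀ k x, τA (gA S g k x) = leb x := fun k x => by
    rw [hτAv, gA_coe, hg]
  -- PED
  have hScl : IsClosed (S.topologicalClosure : Set B) :=
    StarSubalgebra.isClosed_topologicalClosure _
  have hSA : S.topologicalClosure ≤ A0 S g :=
    StarSubalgebra.topologicalClosure_minimal (S_le S g) (isClosed_A0 S g)
  have hRFP : RFPw (J := Unit) (fun _ => S.topologicalClosure) (fun _ x => τ (x : B)) τA
      (fun _ => StarSubalgebra.inclusion hSA) (gA S g) := by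
    refine ⟨hτA, fun _ _ => rfl, hgA, ?_, ?_⟩
    · rw [← hsub]
      have h1 := T_CLO.t_CLO B τ hτ _ _ hfree
      refine free_mono h1 (fun o : Unit ⊕ ℕ => o.elim (fun _ => none) fun k => some (2 * k)) ?_ ?_
      · rintro (a | a) (b | b) hab
        · rfl
        · simp at hab
        · simp at hab
        · simp at hab
          rw [hab]
      · rintro (a | a)
        · rintro _ ⟨x, ⟨y, rfl⟩, rfl⟩
          exact y.2
        · rintro _ ⟨x, ⟨y, rfl⟩, rfl⟩
          exact StarSubalgebra.le_topologicalClosure _ ⟨y, rfl⟩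
    · rw [eq_top_iff]
      rintro x -
      have hx : (x : B) ∈ closure ((StarAlgebra.adjoin ℂ ((S : Set B) ∪
        ⋃ k, Set.range (g (2 * k))) : StarSubalgebra ℂ B) : Set B) := x.2
      show x ∈ closure ((StarAlgebra.adjoin ℂ _ : StarSubalgebra ℂ (A0 S g)) : Set (A0 S g))
      rw [closure_subtype]
      refine closure_mono ?_ hx
      set U : StarSubalgebra ℂ (A0 S g) := StarAlgebra.adjoin ℂ
        ((⋃ _ : Unit, Set.range (StarSubalgebra.inclusion hSA)) ∪
          ⋃ n, Set.range (gA S g n)) with hU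
      have h2 : StarAlgebra.adjoin ℂ ((S : Set B) ∪ ⋃ k, Set.range (g (2 * k))) ≤
          U.map (A0 S g).subtype := by
        refine StarAlgebra.adjoin_le ?_
        rintro y (hy | hy)
        · refine ⟨⟨y, S_le S g hy⟩, StarAlgebra.subset_adjoin _ _ (Or.inl ?_), rfl⟩
          refine Set.mem_iUnion.2 ⟨(), ⟨y, StarSubalgebra.le_topologicalClosure _ hy⟩, rfl⟩
        · obtain ⟨k, y, rfl⟩ := Set.mem_iUnion.1 hy
          refine ⟨gA S g k y, StarAlgebra.subset_adjoin _ _ (Or.inr ?_), rfl⟩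
          exact Set.mem_iUnion.2 ⟨k, y, rfl⟩
      intro y hy
      obtain ⟨x, hx, rfl⟩ := h2 hy
      exact ⟨x, hx, rfl⟩
  have hHU : HU τA := huw' _ _ _ _ _ _ _ hRFP
  have hPED : PED (A0 S g) := T_R0.t_R0 T_INV.t_INV _
    (T_SRB.t_SRB (T_RDG.t_RDG T_T1.t_T1) _ _ hτA hHU)
  -- groups
  set PA : Set (Option ℕ) := {o | o = none ∨ ∃ k, o = some (2 * k)} with hPA
  have hleSf : ∀ (P : Set (Option ℕ)) (o : Option ℕ), o ∈ P →
      Sf o ≤ (⨆ k : {k // k ∈ P}, Sf k.1).topologicalClosure := fun P o ho =>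
    le_trans (le_iSup (fun k : {k // k ∈ P} => Sf k.1) ⟨o, ho⟩)
      (StarSubalgebra.le_topologicalClosure _)
  have hA0le : ∀ P : Set (Option ℕ), PA ⊆ P →
      A0 S g ≤ (⨆ k : {k // k ∈ P}, Sf k.1).topologicalClosure := by
    intro P hP
    refine StarSubalgebra.topologicalClosure_minimal ?_
      (StarSubalgebra.isClosed_topologicalClosure _)
    refine StarAlgebra.adjoin_le ?_
    rintro y (hy | hy)
    · exact hleSf P none (hP (Or.inl rfl)) hy
    · obtain ⟨k, y, rfl⟩ := Set.mem_iUnion.1 hy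
      exact hleSf P (some (2 * k)) (hP (Or.inr ⟨k, rfl⟩)) ⟨y, rfl⟩
  have hadj : ∀ {C : Type} [CStarAlgebra C] (f : C(unitInterval, ℂ) →⋆ₐ[ℂ] C)
      (x : C(unitInterval, ℂ)), StarAlgebra.adjoin ℂ {f x} ≤ f.range := by
    intro C _ f x
    refine StarAlgebra.adjoin_le ?_
    rintro _ rfl
    exact ⟨x, rfl⟩
  have hadjA : ∀ (k : ℕ) (x : C(unitInterval, ℂ)),
      (StarAlgebra.adjoin ℂ {gA S g k x}).map (A0 S g).subtype ≤ Sf (some (2 * k)) := by
    intro k x
    rw [StarSubalgebra.map_le_iff_le_comap]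
    refine StarAlgebra.adjoin_le ?_
    rintro _ rfl
    exact ⟨x, rfl⟩
  have hT : (S.comap (A0 S g).subtype).map (A0 S g).subtype ≤ Sf none := by
    rw [StarSubalgebra.map_le_iff_le_comap]
    exact le_rfl
  refine ⟨A0 S g, inferInstance, τA, (A0 S g).subtype, S.comap (A0 S g).subtype,
    um (gA S g 0) z, gA S g 1 (cx φ), um (g 1) z, g 3 (cx φ), ⟨fun _ => rfl, hPED, ?_, ?_, ?_⟩,
    Subtype.val_injective, ?_⟩
  · refine ⟨hτA, ?_, ?_, ?_, ?_, ?_⟩
    · rw [← map_star, star_cx]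
    · intro m hm
      rw [Uc_map, hgA, leb_Uc hφ2 m hm]
    · intro n hn
      rw [um_zpow, hgA, hz n hn]
    · rw [← hsub]
      refine free_mono hfree (fun b : Bool => if b then none else some 0) ?_ ?_
      · intro a b hab
        cases a <;> cases b <;> simp_all
      · intro b
        cases b with
        | true => exact hT
        | false => exact hadjA 0 z
    · rw [← hsub]
      have h1 := grp hτ hfree {o | o = none ∨ o = some 0} (some 2) (by simp)
        (X := (S.comap (A0 S g).subtype ⊔ StarAlgebra.adjoin ℂ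
          {((um (gA S g 0) z : unitary (A0 S g)) : A0 S g)}).map (A0 S g).subtype)
        (Y := (StarAlgebra.adjoin ℂ {gA S g 1 (cx φ)}).map (A0 S g).subtype) ?_ (hadjA 1 (cx φ))
      · refine free_mono h1 id Function.injective_id ?_
        intro b
        cases b with
        | true => exact le_rfl
        | false => exact le_rfl
      · rw [StarSubalgebra.map_le_iff_le_comap]
        refine sup_le ?_ ?_
        · rw [← StarSubalgebra.map_le_iff_le_comap]
          exact le_trans hT (hleSf _ none (Or.inl rfl))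
        · rw [← StarSubalgebra.map_le_iff_le_comap]
          exact le_trans (hadjA 0 z) (hleSf _ (some 0) (Or.inr rfl))
  · refine ⟨hτ, ?_, ?_, ?_, ?_, ?_⟩
    · rw [← map_star, star_cx]
    · intro m hm
      rw [Uc_map, hg, leb_Uc hφ2 m hm]
    · intro n hn
      rw [um_zpow, hg, hz n hn]
    · have hr : (A0 S g).subtype.range ≤ A0 S g := by
        rintro _ ⟨x, rfl⟩
        exact x.2
      refine grp hτ hfree PA (some 1) ?_ _ _ (le_trans hr (hA0le PA subset_rfl)) (hadj (g 1) z)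
      rintro (h | ⟨k, h⟩)
      · simp at h
      · simp at h
        omega
    · have hr : (A0 S g).subtype.range ≤ A0 S g := by
        rintro _ ⟨x, rfl⟩
        exact x.2
      refine grp hτ hfree (PA ∪ {some 1}) (some 3) ?_ _ _ ?_ (hadj (g 3) (cx φ))
      · rintro ((h | ⟨k, h⟩) | h)
        · simp at h
        · simp at h
          omega
        · simp at h
      · refine sup_le (le_trans hr (hA0le _ Set.subset_union_left)) ?_
        exact le_trans (hadj (g 1) z) (hleSf _ (some 1) (Or.inr rfl))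
  · intro ε hε
    obtain ⟨e, he, h⟩ := hcut φ hφinj ε hε
    refine ⟨e, he, ?_⟩
    have := h (A0 S g) τA (gA S g 1) (hgA 1)
    exact this
  · refine le_antisymm hT ?_
    intro x hx
    exact ⟨⟨x, S_le S g hx⟩, hx, rfl⟩

end Pool.Agent.N717.UN
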